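import Mathlib
import Pool.Agent.U18.UB.Stm

/-!
Project UB, package AVG: means over the body `bs N D`.
-/

set_option autoImplicit false

open MeasureTheory Set Filter Topology
open scoped ENNReal

namespace Pool.Agent.U111.UB.AVG

open Pool.Agent.U18.UB

section norm

variable {m : ℕ} {N : E m → ℝ}

theorem N_zero (h : Nrm N) : N 0 = 0 := by
  have := h.smul 0 0
  simpa using this

theorem N_neg (h : Nrm N) (x : E m) : N (-x) = N x := by
  have := h.smul (-1) x
  simpa using this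

theorem N_nonneg (h : Nrm N) (x : E m) : 0 ≤ N x := by
  by_cases hx : x = 0
  · rw [hx, N_zero h]
  · exact (h.pos x hx).le

theorem N_sum (h : Nrm N) {ι : Type} (s : Finset ι) (f : ι → E m) :
    N (∑ i ∈ s, f i) ≤ ∑ i ∈ s, N (f i) := by
  classical
  induction s using Finset.induction_on with
  | empty => simp [N_zero h]
  | insert a s ha ih =>
    rw [Finset.sum_insert ha, Finset.sum_insert ha]
    exact (h.add_le _ _).trans (by linarith)

theorem N_le (h : Nrm N) : ∃ C : ℝ, 0 < C ∧ ∀ x, N x ≤ C * ‖x‖ := by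
  have hs : 0 ≤ ∑ j : Fin m, N (EuclideanSpace.basisFun (Fin m) ℝ j) :=
    Finset.sum_nonneg fun j _ => N_nonneg h _
  refine ⟨1 + ∑ j : Fin m, N (EuclideanSpace.basisFun (Fin m) ℝ j), by linarith, fun x => ?_⟩
  have hx := (EuclideanSpace.basisFun (Fin m) ℝ).sum_repr x
  calc N x = N (∑ j, (EuclideanSpace.basisFun (Fin m) ℝ).repr x j •
        EuclideanSpace.basisFun (Fin m) ℝ j) := by rw [hx]
    _ ≤ ∑ j, N ((EuclideanSpace.basisFun (Fin m) ℝ).repr x j •
        EuclideanSpace.basisFun (Fin m) ℝ j) := N_sum h _ _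
    _ = ∑ j, |(EuclideanSpace.basisFun (Fin m) ℝ).repr x j| *
        N (EuclideanSpace.basisFun (Fin m) ℝ j) := by
        refine Finset.sum_congr rfl fun j _ => h.smul _ _
    _ ≤ ∑ j, ‖x‖ * N (EuclideanSpace.basisFun (Fin m) ℝ j) := by
        refine Finset.sum_le_sum fun j _ => mul_le_mul_of_nonneg_right ?_ (N_nonneg h _)
        have h1 := PiLp.norm_apply_le ((EuclideanSpace.basisFun (Fin m) ℝ).repr x) j
        rw [LinearIsometryEquiv.norm_map] at h1
        exact h1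
    _ = (∑ j, N (EuclideanSpace.basisFun (Fin m) ℝ j)) * ‖x‖ := by
        rw [← Finset.mul_sum, mul_comm]
    _ ≤ _ := by
        have := norm_nonneg x
        nlinarith

theorem N_cont (h : Nrm N) : Continuous N := by
  obtain ⟨C, hC, h1⟩ := N_le h
  refine (LipschitzWith.of_dist_le_mul (K := ⟨C, hC.le⟩) fun x y => ?_).continuous
  rw [Real.dist_eq, dist_eq_norm, abs_le]
  have h2 : N x ≤ N (x - y) + N y := by
    have := h.add_le (x - y) y
    rwa [sub_add_cancel] at this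
  have h3 : N y ≤ N (x - y) + N x := by
    have := h.add_le (y - x) x
    rwa [sub_add_cancel, ← N_neg h (y - x), neg_sub] at this
  have h4 := h1 (x - y)
  constructor
  · show -(C * ‖x - y‖) ≤ _
    linarith
  · show _ ≤ C * ‖x - y‖
    linarith

theorem N_ge (h : Nrm N) (hm : 1 ≤ m) : ∃ c : ℝ, 0 < c ∧ ∀ x, c * ‖x‖ ≤ N x := by
  have : Nonempty (Fin m) := ⟨⟨0, hm⟩⟩
  have : Nontrivial (E m) := inferInstance
  obtain ⟨x0, hx0, hmin⟩ := (isCompact_sphere (0 : E m) 1).exists_isMinOn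
    (NormedSpace.sphere_nonempty.2 zero_le_one) (N_cont h).continuousOn
  have hx0' : ‖x0‖ = 1 := by simpa using hx0
  have hne : x0 ≠ 0 := by
    intro h0
    rw [h0, norm_zero] at hx0'
    exact zero_ne_one hx0'
  refine ⟨N x0, h.pos x0 hne, fun x => ?_⟩
  by_cases hx : x = 0
  · simp [hx, N_zero h]
  have hx' : 0 < ‖x‖ := norm_pos_iff.2 hx
  have h1 : ‖x‖⁻¹ • x ∈ Metric.sphere (0 : E m) 1 := by
    rw [mem_sphere_zero_iff_norm, norm_smul, norm_inv, norm_norm, inv_mul_cancel₀ hx'.ne']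
  have h2 : N x0 ≤ N (‖x‖⁻¹ • x) := hmin h1
  rw [h.smul, abs_of_pos (inv_pos.2 hx')] at h2
  rw [← div_eq_inv_mul, le_div_iff₀ hx'] at h2
  exact h2

theorem ball_meas (h : Nrm N) : MeasurableSet (ball N) :=
  (isClosed_le (N_cont h) continuous_const).measurableSet

theorem ball_pos (h : Nrm N) : 0 < volume (ball N) :=
  lt_of_lt_of_le ((isOpen_lt (N_cont h) continuous_const).measure_pos volume
    (⟨0, by simp [N_zero h]⟩ : {x | N x < 1}.Nonempty)) (measure_mono fun x hx =>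
      show N x ≤ 1 from le_of_lt (show N x < 1 from hx))

theorem ball_fin (h : Nrm N) (hm : 1 ≤ m) : volume (ball N) < ⊤ := by
  obtain ⟨c, hc, h1⟩ := N_ge h hm
  refine lt_of_le_of_lt (measure_mono (t := Metric.closedBall (0 : E m) (1 / c)) fun x hx => ?_)
    measure_closedBall_lt_top
  rw [mem_closedBall_zero_iff, le_div_iff₀ hc]
  have h2 : N x ≤ 1 := hx
  linarith [h1 x]

theorem un_prob {V : Type} [MeasureSpace V] {A : Set V} (h0 : volume A ≠ 0) (h1 : volume A ≠ ⊤) :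
    IsProbabilityMeasure (un A) := by
  constructor
  unfold un
  rw [Measure.smul_apply, Measure.restrict_apply_univ, smul_eq_mul, ENNReal.inv_mul_cancel h0 h1]

end norm

theorem box {b : ℕ} {D : Set (Fin b → ℝ)} (hD : UBd D) :
    ∃ ε : ℝ, 0 < ε ∧ ∀ s : Fin b → ℝ, (∀ i, |s i| ≤ ε) → s ∈ D := by
  obtain ⟨t₀, ht₀⟩ := hD.int
  rw [mem_interior_iff_mem_nhds, Metric.mem_nhds_iff] at ht₀
  obtain ⟨r, hr, hsub⟩ := ht₀
  refine ⟨r / 2, by linarith, fun s hs => ?_⟩
  set t : Fin b → ℝ := fun i => if 0 ≤ t₀ i then t₀ i + r / 2 else t₀ i - r / 2 with ht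
  have h1 : t ∈ Metric.ball t₀ r := by
    rw [Metric.mem_ball, dist_pi_lt_iff hr]
    intro i
    rw [Real.dist_eq]
    simp only [ht]
    split_ifs with h
    · rw [add_sub_cancel_left, abs_of_pos (by linarith)]; linarith
    · rw [sub_sub_cancel_left, abs_neg, abs_of_pos (by linarith)]; linarith
  refine hD.unc t (hsub h1) s fun i => (hs i).trans ?_
  simp only [ht]
  split_ifs with h
  · exact le_trans (by linarith) (le_abs_self _)
  · exact le_trans (by linarith [not_le.1 h]) (neg_le_abs _)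

section wt

variable {b : ℕ} (m : Fin b → ℕ) {D : Set (Fin b → ℝ)}

theorem Dp_closed (hD : UBd D) : IsClosed {t : Fin b → ℝ | t ∈ D ∧ ∀ i, 0 ≤ t i} := by
  have h1 : {t : Fin b → ℝ | t ∈ D ∧ ∀ i, 0 ≤ t i} = D ∩ ⋂ i, {t : Fin b → ℝ | 0 ≤ t i} := by
    ext t; simp
  rw [h1]
  exact hD.comp.isClosed.inter (isClosed_iInter fun i => isClosed_le continuous_const
    (continuous_apply i))

theorem pr_cont : Continuous fun t : Fin b → ℝ => ∏ i, t i ^ (m i - 1) :=
  continuous_finsetProd _ fun i _ => (continuous_apply i).pow _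

theorem wt_meas (hD : UBd D) : Measurable (wt m D) :=
  (pr_cont m).measurable.indicator (Dp_closed hD).measurableSet

theorem wt_fin (hD : UBd D) : ∫⁻ t, ENNReal.ofReal (wt m D t) < ⊤ := by
  have h1 : IntegrableOn (fun t : Fin b → ℝ => ∏ i, t i ^ (m i - 1))
      {t : Fin b → ℝ | t ∈ D ∧ ∀ i, 0 ≤ t i} volume := by
    apply ContinuousOn.integrableOn_compact _ (pr_cont m).continuousOn
    exact hD.comp.of_isClosed_subset (Dp_closed hD) fun t ht => ht.1
  exact (h1.integrable_indicator (Dp_closed hD).measurableSet).lintegral_lt_top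

theorem wt_pos (hD : UBd D) : 0 < ∫⁻ t, ENNReal.ofReal (wt m D t) := by
  obtain ⟨ε, hε, hbox⟩ := box hD
  rw [lintegral_pos_iff_support (wt_meas m hD).ennreal_ofReal]
  have hopen : IsOpen (univ.pi fun _ : Fin b => Ioo (0 : ℝ) ε) :=
    isOpen_set_pi finite_univ fun _ _ => isOpen_Ioo
  refine lt_of_lt_of_le (hopen.measure_pos volume ⟨fun _ => ε / 2, ?_⟩) (measure_mono ?_)
  · intro i _
    exact ⟨by linarith, by linarith⟩
  · intro t ht
    have ht' : ∀ i, 0 < t i ∧ t i < ε := fun i => ht i (mem_univ i)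
    have hmem : t ∈ {t : Fin b → ℝ | t ∈ D ∧ ∀ i, 0 ≤ t i} :=
      ⟨hbox t fun i => by rw [abs_of_pos (ht' i).1]; exact (ht' i).2.le, fun i => (ht' i).1.le⟩
    rw [Function.mem_support, Ne, ENNReal.ofReal_eq_zero, not_le]
    unfold wt
    rw [indicator_of_mem hmem]
    exact Finset.prod_pos fun i _ => pow_pos (ht' i).1 _

theorem Pt_prob (hD : UBd D) : IsProbabilityMeasure (Pt m D) := by
  constructor
  unfold Pt
  rw [Measure.smul_apply, withDensity_apply _ MeasurableSet.univ, Measure.restrict_univ,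
    smul_eq_mul, ENNReal.inv_mul_cancel (wt_pos m hD).ne' (wt_fin m hD).ne]

end wt

section main

variable {b : ℕ} {m : Fin b → ℕ} {N : ∀ i, E (m i) → ℝ}

theorem Pz_eq (hm : ∀ i, 1 ≤ m i) (hN : ∀ i, Nrm (N i)) :
    Pz N = (∏ i, volume (ball (N i)))⁻¹ • volume.restrict (univ.pi fun i => ball (N i)) := by
  unfold Pz
  have : ∀ i, IsProbabilityMeasure (un (ball (N i))) := fun i =>
    un_prob (ball_pos (hN i)).ne' (ball_fin (hN i) (hm i)).ne
  apply Measure.pi_eq
  intro s hs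
  have h1 : (volume : Measure (∀ i, E (m i))).restrict (univ.pi fun i => ball (N i)) =
      Measure.pi fun i => (volume : Measure (E (m i))).restrict (ball (N i)) := by
    rw [volume_pi, Measure.restrict_pi_pi]
  rw [h1, Measure.smul_apply, Measure.pi_pi, smul_eq_mul]
  unfold un
  simp only [Measure.smul_apply, smul_eq_mul]
  rw [Finset.prod_mul_distrib]
  congr 1
  rw [ENNReal.prod_inv_distrib]
  intro i _ j _ _
  exact Or.inl (ball_pos (hN i)).ne'

theorem V_ne_zero (hN : ∀ i, Nrm (N i)) : (∏ i, volume (ball (N i))) ≠ 0 :=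
  Finset.prod_ne_zero_iff.2 fun i _ => (ball_pos (hN i)).ne'

theorem V_ne_top (hm : ∀ i, 1 ≤ m i) (hN : ∀ i, Nrm (N i)) : (∏ i, volume (ball (N i))) ≠ ⊤ :=
  ENNReal.prod_ne_top fun i _ => (ball_fin (hN i) (hm i)).ne

theorem Pz_prob (hm : ∀ i, 1 ≤ m i) (hN : ∀ i, Nrm (N i)) : IsProbabilityMeasure (Pz N) := by
  have : ∀ i, IsProbabilityMeasure (un (ball (N i))) := fun i =>
    un_prob (ball_pos (hN i)).ne' (ball_fin (hN i) (hm i)).ne
  unfold Pz
  infer_instance

theorem Ph_meas (hN : ∀ i, Nrm (N i)) :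
    Measurable (fun p : (Fin b → ℝ) × (∀ i, E (m i)) => Ph N p.1 p.2) := by
  refine measurable_pi_lambda _ fun i => ?_
  unfold Ph
  have h1 : Measurable (fun p : (Fin b → ℝ) × (∀ i, E (m i)) => p.1 i) :=
    (measurable_pi_apply i).comp measurable_fst
  have h2 : Measurable (fun p : (Fin b → ℝ) × (∀ i, E (m i)) => p.2 i) :=
    (measurable_pi_apply i).comp measurable_snd
  exact (h1.div ((N_cont (hN i)).measurable.comp h2)).smul h2

theorem bs_meas (hN : ∀ i, Nrm (N i)) {D : Set (Fin b → ℝ)} (hD : UBd D) :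
    MeasurableSet (bs N D) := by
  have h1 : Continuous fun x : (∀ i, E (m i)) => (fun i => N i (x i)) :=
    continuous_pi fun i => (N_cont (hN i)).comp (continuous_apply i)
  exact (hD.comp.isClosed.preimage h1).measurableSet

theorem ae_ne (hm : ∀ i, 1 ≤ m i) : ∀ᵐ z : (∀ i, E (m i)), ∀ i, z i ≠ 0 := by
  rw [ae_all_iff]
  intro i
  have : ∀ i, Nonempty (Fin (m i)) := fun i => ⟨⟨0, hm i⟩⟩
  have : ∀ i, Nontrivial (E (m i)) := fun i => inferInstance
  have h := Measure.pi_hyperplane (μ := fun i => (volume : Measure (E (m i)))) i (0 : E (m i))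
  rw [ae_iff]
  simp only [not_not]
  exact h

theorem ae_ne' : ∀ᵐ t : (Fin b → ℝ), ∀ i, t i ≠ 0 := by
  rw [ae_all_iff]
  intro i
  have h := Measure.pi_hyperplane (μ := fun _ : Fin b => (volume : Measure ℝ)) i (0 : ℝ)
  rw [ae_iff]
  simp only [not_not]
  exact h

theorem Ph_mem (hN : ∀ i, Nrm (N i)) {D : Set (Fin b → ℝ)} {t : Fin b → ℝ} (ht : ∀ i, 0 < t i)
    {z : ∀ i, E (m i)} (hz : ∀ i, z i ≠ 0) : Ph N t z ∈ bs N D ↔ t ∈ D := by
  have h1 : (fun i => N i (Ph N t z i)) = t := by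
    funext i
    unfold Ph
    have h2 := (hN i).pos (z i) (hz i)
    rw [(hN i).smul, abs_of_pos (div_pos (ht i) h2), div_mul_cancel₀ _ h2.ne']
  unfold bs
  rw [mem_ofPred_eq, h1]

theorem key (hPOL : S_POL) (hm : ∀ i, 1 ≤ m i) (hN : ∀ i, Nrm (N i)) {D : Set (Fin b → ℝ)}
    (hD : UBd D) (F : (∀ i, E (m i)) → ℝ≥0∞) (hF : Measurable F) :
    ∫⁻ x in bs N D, F x = ((∏ i, (m i : ℝ≥0∞)) * (∏ i, volume (ball (N i))) *
      (∫⁻ t, ENNReal.ofReal (wt m D t))) *
        ∫⁻ t, ∫⁻ z, F (Ph N t z) ∂(Pz N) ∂(Pt m D) := by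
  have := Pz_prob hm hN
  set V : ℝ≥0∞ := ∏ i, volume (ball (N i)) with hV
  have hV0 : V ≠ 0 := V_ne_zero hN
  have hV1 : V ≠ ⊤ := V_ne_top hm hN
  set G : (Fin b → ℝ) → ℝ≥0∞ := fun t => ∫⁻ z, F (Ph N t z) ∂(Pz N) with hG
  have hGm : Measurable G :=
    Measurable.lintegral_prod_right' (f := fun p : (Fin b → ℝ) × (∀ i, E (m i)) =>
      F (Ph N p.1 p.2)) (hF.comp (Ph_meas hN))
  have hGV : ∀ t, ∫⁻ z in univ.pi fun i => ball (N i), F (Ph N t z) = V * G t := by
    intro t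
    simp only [hG]
    rw [Pz_eq hm hN, lintegral_smul_measure, smul_eq_mul, ← mul_assoc,
      ENNReal.mul_inv_cancel hV0 hV1, one_mul]
  have h1 : ∀ t : Fin b → ℝ, (∀ i, 0 < t i) →
      ∫⁻ z in univ.pi fun i => ball (N i), (bs N D).indicator F (Ph N t z) =
        D.indicator 1 t * (V * G t) := by
    intro t ht
    rw [← hGV t]
    by_cases htD : t ∈ D
    · rw [indicator_of_mem htD, Pi.one_apply, one_mul]
      apply lintegral_congr_ae
      filter_upwards [ae_restrict_of_ae (ae_ne hm)] with z hz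
      rw [indicator_of_mem ((Ph_mem hN ht hz).2 htD)]
    · rw [indicator_of_notMem htD, zero_mul]
      rw [← lintegral_zero (μ := (volume : Measure (∀ i, E (m i))).restrict
        (univ.pi fun i => ball (N i)))]
      apply lintegral_congr_ae
      filter_upwards [ae_restrict_of_ae (ae_ne hm)] with z hz
      rw [indicator_of_notMem (fun h => htD ((Ph_mem hN ht hz).1 h))]
  have hpm : MeasurableSet {t : Fin b → ℝ | ∀ i, 0 < t i} := by
    have : {t : Fin b → ℝ | ∀ i, 0 < t i} = ⋂ i, {t : Fin b → ℝ | 0 < t i} := by ext t; simp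
    rw [this]
    exact MeasurableSet.iInter fun i => measurableSet_lt measurable_const (measurable_pi_apply i)
  have h2 : ∫⁻ t in {t : Fin b → ℝ | ∀ i, 0 < t i}, ENNReal.ofReal (∏ i, t i ^ (m i - 1)) *
      ∫⁻ z in univ.pi fun i => ball (N i), (bs N D).indicator F (Ph N t z) =
      ∫⁻ t, ENNReal.ofReal (wt m D t) * (V * G t) := by
    rw [← lintegral_indicator hpm]
    apply lintegral_congr_ae
    filter_upwards [ae_ne'] with t ht
    by_cases hpos : ∀ i, 0 < t i
    · rw [indicator_of_mem (show t ∈ {t : Fin b → ℝ | ∀ i, 0 < t i} from hpos), h1 t hpos]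
      by_cases htD : t ∈ D
      · unfold wt
        rw [indicator_of_mem htD, indicator_of_mem
          (show t ∈ {t | t ∈ D ∧ ∀ i, 0 ≤ t i} from ⟨htD, fun i => (hpos i).le⟩),
          Pi.one_apply, one_mul]
      · unfold wt
        rw [indicator_of_notMem htD, indicator_of_notMem
          (show t ∉ {t | t ∈ D ∧ ∀ i, 0 ≤ t i} from fun h => htD h.1),
          ENNReal.ofReal_zero, zero_mul, mul_zero]
    · rw [indicator_of_notMem (show t ∉ {t : Fin b → ℝ | ∀ i, 0 < t i} from hpos)]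
      unfold wt
      rw [indicator_of_notMem, ENNReal.ofReal_zero, zero_mul]
      rintro ⟨-, h⟩
      exact hpos fun i => lt_of_le_of_ne (h i) (ht i).symm
  have h3 : ∫⁻ t, ENNReal.ofReal (wt m D t) * (V * G t) =
      V * ∫⁻ t, ENNReal.ofReal (wt m D t) * G t := by
    rw [← lintegral_const_mul' _ _ hV1]
    apply lintegral_congr
    intro t
    ring
  have h4 : ∫⁻ t, G t ∂(Pt m D) = (∫⁻ t, ENNReal.ofReal (wt m D t))⁻¹ *
      ∫⁻ t, ENNReal.ofReal (wt m D t) * G t := by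
    unfold Pt
    rw [lintegral_smul_measure, smul_eq_mul,
      lintegral_withDensity_eq_lintegral_mul _ (wt_meas m hD).ennreal_ofReal hGm]
    rfl
  rw [← lintegral_indicator (bs_meas hN hD), hPOL b m N hm hN _ (hF.indicator (bs_meas hN hD)),
    h2, h3, h4]
  have h5 : (∫⁻ t, ENNReal.ofReal (wt m D t)) * (∫⁻ t, ENNReal.ofReal (wt m D t))⁻¹ = 1 :=
    ENNReal.mul_inv_cancel (wt_pos m hD).ne' (wt_fin m hD).ne
  calc _ = (∏ i, (m i : ℝ≥0∞)) * V * 1 * ∫⁻ t, ENNReal.ofReal (wt m D t) * G t := by ring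
    _ = _ := by rw [← h5]; ring

end main

theorem t_AVG : S_POL → S_AVG := by
  intro hPOL b m N hm hN D hD
  have hPt := Pt_prob m hD
  have hPz := Pz_prob hm hN
  have hc0 : ((∏ i, (m i : ℝ≥0∞)) * (∏ i, volume (ball (N i))) *
      (∫⁻ t, ENNReal.ofReal (wt m D t))) ≠ 0 := by
    refine mul_ne_zero (mul_ne_zero (Finset.prod_ne_zero_iff.2 fun i _ => ?_) (V_ne_zero hN))
      (wt_pos m hD).ne'
    have := hm i
    exact_mod_cast (by omega : m i ≠ 0)
  have hc1 : ((∏ i, (m i : ℝ≥0∞)) * (∏ i, volume (ball (N i))) *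
      (∫⁻ t, ENNReal.ofReal (wt m D t))) ≠ ⊤ := by
    refine ENNReal.mul_ne_top (ENNReal.mul_ne_top (ENNReal.prod_ne_top fun i _ => ?_)
      (V_ne_top hm hN)) (wt_fin m hD).ne
    exact ENNReal.natCast_ne_top _
  have hvol : volume (bs N D) = ((∏ i, (m i : ℝ≥0∞)) * (∏ i, volume (ball (N i))) *
      (∫⁻ t, ENNReal.ofReal (wt m D t))) := by
    have h := key hPOL hm hN hD (fun _ => 1) measurable_const
    simpa using h
  refine ⟨hPt, hPz, un_prob (by rw [hvol]; exact hc0) (by rw [hvol]; exact hc1), Ph_meas hN, ?_⟩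
  intro F hF
  unfold un
  rw [lintegral_smul_measure, smul_eq_mul, key hPOL hm hN hD F hF, hvol, ← mul_assoc,
    ENNReal.inv_mul_cancel hc0 hc1, one_mul]

end Pool.Agent.U111.UB.AVG
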